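import Pool.Agent.X190.TW.Tri

set_option autoImplicit false
set_option linter.unusedSectionVars false

open scoped InnerProductSpace InnerProduct ENNReal Topology
open Filter

/-! Dominant entries. -/

namespace Pool.Agent.X190.TW

open Pool.Agent.W649.ZL MvPolynomial

universe u v w z

section
variable {G : Type u} {K : Type v} {L : Type w} [Group G] [Fintype K] [Fintype L]
  [DecidableEq K] [DecidableEq L]

/-- the translated component -/
noncomputable def VV (F : EE G K) (k : K) (t : G) : EE G Unit := elem t⁻¹ () k F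

theorem VV_apply (F : EE G K) (k : K) (t u : G) : VV F k t (u, ()) = F (t * u, k) := by
  unfold VV
  rw [elem_apply, if_pos rfl, inv_inv]

theorem norm_VV (F : EE G K) (k : K) (t : G) : ‖VV F k t‖ = ‖VV F k 1‖ := by
  have e2 : ‖VV F k t‖ ^ 2 = ‖VV F k 1‖ ^ 2 := by
    rw [norm_sq_tsum', norm_sq_tsum']
    let e : G × Unit ≃ G × Unit := (Equiv.mulLeft t).prodCongr (Equiv.refl _)
    rw [← e.tsum_eq (fun x => ‖VV F k 1 x‖ ^ 2)]
    refine tsum_congr fun x => ?_
    obtain ⟨x, ⟨⟩⟩ := x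
    change ‖VV F k t (x, ())‖ ^ 2 = ‖VV F k 1 (t * x, ())‖ ^ 2
    rw [VV_apply, VV_apply, one_mul]
  exact (sq_eq_sq₀ (norm_nonneg _) (norm_nonneg _)).1 e2

/-- **Dominant entries.** -/
theorem kerDimM_dominant (B : K → L → (G →₀ ℂ)) (p : K → L) (g : K → G)
    (h : ∀ i, ∑ k : K, ∑ t ∈ (B k (p i)).support, ‖B k (p i) t‖ < 2 * ‖B i (p i) (g i)‖) :
    kerDimM B = 0 := by
  classical
  obtain ⟨T, hT, hTk, hTa⟩ := exists_op B
  rw [hTk]
  apply vd_ker_of_injective
  rw [injective_iff_map_eq_zero]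
  intro F hF
  by_contra hne
  have hK : Nonempty K := by
    by_contra hcon
    rw [not_nonempty_iff] at hcon
    apply hne
    ext ⟨x, k⟩
    exact (hcon.false k).elim
  obtain ⟨i, hi⟩ := Finite.exists_max (fun k : K => ‖VV F k 1‖)
  have hpos : 0 < ‖VV F i 1‖ := by
    rcases (norm_nonneg (VV F i 1)).lt_or_eq with h1 | h1
    · exact h1
    · exfalso
      apply hne
      ext ⟨x, k⟩
      have h2 := hi k
      rw [← h1] at h2
      have h3 : VV F k 1 = 0 := norm_eq_zero.1 (le_antisymm h2 (norm_nonneg _))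
      have h4 := VV_apply F k 1 x
      rw [h3, one_mul] at h4
      exact h4.symm
  set j := p i with hj
  set S : Finset ((_ : K) × G) := Finset.univ.sigma (fun k => (B k j).support) with hS
  have hsum : ∑ q ∈ S, B q.1 j q.2 • VV F q.1 q.2 = 0 := by
    ext ⟨u, ⟨⟩⟩
    rw [sum_apply_EE]
    have h1 := hTa F u j
    rw [hF] at h1
    have h2 : (0 : ℂ) = ∑ k : K, ∑ t ∈ (B k j).support, B k j t * F (t * u, k) := h1
    change _ = (0 : ℂ)
    rw [h2, hS, Finset.sum_sigma]
    refine Finset.sum_congr rfl fun k _ => Finset.sum_congr rfl fun t _ => ?_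
    change B k j t * VV F k t (u, ()) = _
    rw [VV_apply]
  have hi' := h i
  have hB : B i j (g i) ≠ 0 := by
    intro h0
    rw [h0, norm_zero, mul_zero] at hi'
    exact absurd hi' (not_lt.2 (Finset.sum_nonneg fun k _ => Finset.sum_nonneg fun t _ =>
      norm_nonneg _))
  have hmem : (⟨i, g i⟩ : (_ : K) × G) ∈ S := by
    rw [hS, Finset.mem_sigma]
    exact ⟨Finset.mem_univ _, Finsupp.mem_support_iff.2 hB⟩
  rw [← Finset.add_sum_erase S _ hmem] at hsum
  have h1 : ‖B i j (g i) • VV F i (g i)‖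
      ≤ ∑ q ∈ S.erase ⟨i, g i⟩, ‖B q.1 j q.2‖ * ‖VV F i 1‖ := by
    rw [eq_neg_of_add_eq_zero_left hsum, norm_neg]
    refine (norm_sum_le _ _).trans (Finset.sum_le_sum fun q _ => ?_)
    rw [norm_smul, norm_VV]
    exact mul_le_mul_of_nonneg_left (hi q.1) (norm_nonneg _)
  rw [norm_smul, norm_VV, ← Finset.sum_mul] at h1
  have h2 : ∑ q ∈ S, ‖B q.1 j q.2‖
      = ‖B i j (g i)‖ + ∑ q ∈ S.erase ⟨i, g i⟩, ‖B q.1 j q.2‖ :=
    (Finset.add_sum_erase S (fun q => ‖B q.1 j q.2‖) hmem).symm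
  have h3 : ∑ q ∈ S, ‖B q.1 j q.2‖ < 2 * ‖B i j (g i)‖ := by
    rw [hS, Finset.sum_sigma]
    exact hi'
  have h4 := le_of_mul_le_mul_right h1 hpos
  linarith

end

end Pool.Agent.X190.TW
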