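import Pool.Agent.X190.TW.Rep2

set_option autoImplicit false
set_option linter.unusedSectionVars false

open scoped InnerProductSpace InnerProduct ENNReal Topology
open Filter

/-! Twisting with Jordan blocks. -/

namespace Pool.Agent.X190.TW

open Pool.Agent.W649.ZL MvPolynomial

universe u v w z

section
variable {G : Type u} {K : Type v} {L : Type w} [Group G] [Fintype K] [Fintype L]
  [DecidableEq K] [DecidableEq L]

/-- limits of matrices with supports in a fixed finite set -/
theorem kerDimM_limit (B : ℕ → K → L → (G →₀ ℂ)) (C : K → L → (G →₀ ℂ)) (T : Finset G)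
    (hB : ∀ n i j, (B n i j).support ⊆ T) (hC : ∀ i j, (C i j).support ⊆ T)
    (ht : ∀ i j g, Tendsto (fun n => B n i j g) atTop (𝓝 (C i j g))) (d : ℝ)
    (hd : ∀ n, d ≤ kerDimM (B n)) : d ≤ kerDimM C := by
  rw [kerDimM_coefT T C hC]
  refine limit_ge _ (famR_eqv _ _ _) d (fun n => coefT T (B n)) (coefT T C) ?_ ?_
  · intro i
    exact ht _ _ _
  · intro n
    rw [← kerDimM_coefT T (B n) (hB n)]
    exact hd n

/-- the representation with the Newton basis at the nodes `0, ε, 2 ε, ...` -/
noncomputable def newt (n : ℕ) (ε x : ℂ) : Matrix (Fin n) (Fin n) ℂ := fun a b =>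
  if a ≤ b then Complex.exp (ε * x) ^ (a : ℕ) * ((Complex.exp (ε * x) - 1) / ε) ^ ((b : ℕ) - a)
    / ((b : ℕ) - a).factorial else 0

/-- the Jordan block `exp(x J)` -/
noncomputable def jord (n : ℕ) (x : ℂ) : Matrix (Fin n) (Fin n) ℂ := fun a b =>
  if a ≤ b then x ^ ((b : ℕ) - a) / ((b : ℕ) - a).factorial else 0

/-- evaluation of the Newton basis -/
noncomputable def vdm (n : ℕ) (ε : ℂ) : Matrix (Fin n) (Fin n) ℂ := fun a c =>
  ε ^ (a : ℕ) * ((a : ℕ).factorial * (c : ℕ).choose a : ℕ)

theorem vdm_unit (n : ℕ) (ε : ℂ) (hε : ε ≠ 0) : IsUnit (vdm n ε) := by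
  rw [Matrix.isUnit_iff_isUnit_det, isUnit_iff_ne_zero]
  rw [Matrix.det_of_isUpperTriangular]
  · rw [Finset.prod_ne_zero_iff]
    intro a _
    unfold vdm
    rw [Nat.choose_self, mul_one]
    exact mul_ne_zero (pow_ne_zero _ hε) (by exact_mod_cast (Nat.factorial_ne_zero _))
  · intro a b hab
    unfold vdm
    have : (b : ℕ) < a := hab
    rw [Nat.choose_eq_zero_of_lt this, mul_zero, Nat.cast_zero, mul_zero]

theorem newt_vdm (n : ℕ) (ε x : ℂ) (hε : ε ≠ 0) (a c : Fin n) :
    ∑ b, newt n ε x a b * vdm n ε b c = vdm n ε a c * Complex.exp (ε * x) ^ (c : ℕ) := by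
  set E := Complex.exp (ε * x) with hE
  have h1 : ∑ b, newt n ε x a b * vdm n ε b c
      = ∑ b ∈ Finset.range n, (if (a : ℕ) ≤ b then E ^ (a : ℕ) * ((E - 1) / ε) ^ (b - (a : ℕ))
        / (b - (a : ℕ)).factorial else 0) * (ε ^ b * (b.factorial * (c : ℕ).choose b : ℕ)) := by
    rw [← Fin.sum_univ_eq_sum_range
      (fun b => (if (a : ℕ) ≤ b then E ^ (a : ℕ) * ((E - 1) / ε) ^ (b - (a : ℕ))
        / (b - (a : ℕ)).factorial else 0) * (ε ^ b * (b.factorial * (c : ℕ).choose b : ℕ)))]
    rfl
  rw [h1]
  have h2 : ∑ b ∈ Finset.range n, (if (a : ℕ) ≤ b then E ^ (a : ℕ) * ((E - 1) / ε) ^ (b - (a : ℕ))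
        / (b - (a : ℕ)).factorial else 0) * (ε ^ b * (b.factorial * (c : ℕ).choose b : ℕ))
      = ∑ b ∈ Finset.range (c + 1), (if (a : ℕ) ≤ b then E ^ (a : ℕ) * ((E - 1) / ε) ^ (b - (a : ℕ))
        / (b - (a : ℕ)).factorial else 0) * (ε ^ b * (b.factorial * (c : ℕ).choose b : ℕ)) := by
    symm
    apply Finset.sum_subset
    · intro b hb
      rw [Finset.mem_range] at hb ⊢
      have := c.2
      omega
    · intro b _ hb
      rw [Finset.mem_range, not_lt] at hb
      rw [Nat.choose_eq_zero_of_lt (by omega), mul_zero, Nat.cast_zero, mul_zero, mul_zero]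
  rw [h2]
  by_cases hac : (a : ℕ) ≤ c
  · have h3 : (c : ℕ) + 1 = a + (c - a + 1) := by omega
    rw [h3, Finset.sum_range_add]
    have h4 : ∑ b ∈ Finset.range a, (if (a : ℕ) ≤ b then E ^ (a : ℕ) * ((E - 1) / ε) ^ (b - (a : ℕ))
        / (b - (a : ℕ)).factorial else 0) * (ε ^ b * (b.factorial * (c : ℕ).choose b : ℕ)) = 0 := by
      apply Finset.sum_eq_zero
      intro b hb
      rw [Finset.mem_range] at hb
      rw [if_neg (by omega), zero_mul]
    rw [h4, zero_add]
    have h5 : ∀ j ∈ Finset.range ((c : ℕ) - a + 1),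
        (if (a : ℕ) ≤ a + j then E ^ (a : ℕ) * ((E - 1) / ε) ^ (a + j - (a : ℕ))
          / (a + j - (a : ℕ)).factorial else 0)
          * (ε ^ ((a : ℕ) + j) * (((a : ℕ) + j).factorial * (c : ℕ).choose (a + j) : ℕ))
        = (ε ^ (a : ℕ) * ((a : ℕ).factorial * (c : ℕ).choose a : ℕ)) * E ^ (a : ℕ)
          * ((E - 1) ^ j * 1 ^ ((c : ℕ) - a - j) * (((c : ℕ) - a).choose j : ℕ)) := by
      intro j hj
      rw [if_pos (by omega), Nat.add_sub_cancel_left, one_pow, mul_one, div_pow, pow_add]
      have e1 : (((a : ℕ) + j).factorial * (c : ℕ).choose (a + j) : ℕ)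
          = (a : ℕ).factorial * (c : ℕ).choose a * (j.factorial * ((c : ℕ) - a).choose j) := by
        rw [← Nat.add_choose_mul_factorial_mul_factorial]
        have e2 := Nat.choose_mul (n := (c : ℕ)) (k := a + j) (s := (a : ℕ)) (by omega)
        rw [Nat.add_sub_cancel_left] at e2
        have e5 : ((a : ℕ) + j).choose j = ((a : ℕ) + j).choose a := Nat.choose_symm_add.symm
        calc ((a : ℕ) + j).choose j * (a : ℕ).factorial * j.factorial * (c : ℕ).choose (a + j)
            = (c : ℕ).choose (a + j) * ((a : ℕ) + j).choose a * ((a : ℕ).factorial * j.factorial) :=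
              by rw [e5]; ring
          _ = _ := by rw [e2]; ring
      rw [e1]
      have e3 : (j.factorial : ℂ) ≠ 0 := by exact_mod_cast Nat.factorial_ne_zero _
      have e4 : ε ^ j ≠ 0 := pow_ne_zero _ hε
      push_cast
      field_simp
    rw [Finset.sum_congr rfl h5, ← Finset.mul_sum, ← add_pow, sub_add_cancel]
    unfold vdm
    rw [mul_assoc _ (E ^ (a : ℕ)), ← pow_add, Nat.add_sub_cancel' hac]
  · push Not at hac
    have h3 : vdm n ε a c = 0 := by
      unfold vdm
      rw [Nat.choose_eq_zero_of_lt hac, mul_zero, Nat.cast_zero, mul_zero]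
    rw [h3, zero_mul]
    apply Finset.sum_eq_zero
    intro b hb
    rw [Finset.mem_range] at hb
    rw [if_neg (by omega), zero_mul]

theorem newt_tendsto (n : ℕ) (x : ℂ) (a b : Fin n) :
    Tendsto (fun k : ℕ => newt n (1 / ((k : ℂ) + 1)) x a b) atTop (𝓝 (jord n x a b)) := by
  unfold newt jord
  by_cases hab : a ≤ b
  · simp only [if_pos hab]
    have h0 : Tendsto (fun k : ℕ => 1 / ((k : ℂ) + 1)) atTop (𝓝[≠] 0) := by
      apply tendsto_nhdsWithin_iff.2
      refine ⟨tendsto_one_div_add_atTop_nhds_zero_nat, Eventually.of_forall fun k => ?_⟩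
      have : ((k : ℂ) + 1) ≠ 0 := by exact_mod_cast Nat.succ_ne_zero k
      exact one_div_ne_zero this
    have h1 : Tendsto (fun ε : ℂ => Complex.exp (ε * x)) (𝓝[≠] 0) (𝓝 1) := by
      have : ContinuousAt (fun ε : ℂ => Complex.exp (ε * x)) 0 := by fun_prop
      have h2 := this.tendsto
      simp only [zero_mul, Complex.exp_zero] at h2
      exact h2.mono_left nhdsWithin_le_nhds
    have h2 : Tendsto (fun ε : ℂ => (Complex.exp (ε * x) - 1) / ε) (𝓝[≠] 0) (𝓝 x) := by
      have h3 : HasDerivAt (fun ε : ℂ => Complex.exp (ε * x)) (Complex.exp (0 * x) * (1 * x)) 0 :=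
        ((hasDerivAt_id (0 : ℂ)).mul_const x).cexp
      rw [zero_mul, Complex.exp_zero, one_mul, one_mul] at h3
      have h4 := hasDerivAt_iff_tendsto_slope_zero.1 h3
      refine h4.congr fun t => ?_
      rw [zero_add, zero_mul, Complex.exp_zero, smul_eq_mul, inv_mul_eq_div]
    have h3 := ((h1.comp h0).pow (a : ℕ)).mul ((h2.comp h0).pow ((b : ℕ) - a))
    have h4 := h3.div_const (((b : ℕ) - a).factorial : ℂ)
    rw [one_pow, one_mul] at h4
    exact h4
  · simp only [if_neg hab]
    exact tendsto_const_nhds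

/-- **Twisting with Jordan blocks.** -/
theorem kerDimM_jordan (n : ℕ) (A : K → L → (G →₀ ℂ)) (B : K × Fin n → L × Fin n → (G →₀ ℂ))
    (χ : G →* ℂˣ) (lam : G → ℂ) (hlam : ∀ x y, lam (x * y) = lam x + lam y)
    (hB : ∀ i a j b g, B (i, a) (j, b) g = A i j g * ((χ g : ℂ) * jord n (lam g) a b)) :
    kerDimM B = n * kerDimM A := by
  classical
  have hl1 : lam 1 = 0 := by
    have := hlam 1 1
    rw [mul_one] at this
    simpa using this
  obtain ⟨T, hT⟩ := exists_supp A
  apply le_antisymm
  · have h := kerDimM_flag A B (fun g a b => (χ g : ℂ) * jord n (lam g) a b) (fun a => (a : ℝ))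
      (by
        intro g a b hab
        have hab' : ¬ a ≤ b := by
          intro h
          have : (a : ℝ) ≤ (b : ℝ) := by exact_mod_cast h
          linarith
        unfold jord
        rw [if_neg hab', mul_zero])
      (1 : G →* Matrix (Fin n) (Fin n) ℂ) (fun g => by
        rw [MonoidHom.one_apply, star_one, one_mul]) (fun _ => χ)
      (fun g a b h => absurd rfl h)
      (by
        intro g a b h
        rw [MonoidHom.one_apply, Matrix.one_apply_ne]
        rintro rfl
        exact h rfl)
      (by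
        intro g a b h
        have hab : a = b := Fin.ext (by exact_mod_cast h)
        subst hab
        rw [MonoidHom.one_apply, Matrix.one_apply_eq]
        unfold jord
        rw [if_pos le_rfl, Nat.sub_self, pow_zero, Nat.factorial_zero, Nat.cast_one, div_one])
      hB
    rwa [Fintype.card_fin] at h
  · -- the approximating matrices
    let Bk : ℕ → K × Fin n → L × Fin n → (G →₀ ℂ) := fun k p q =>
      Finsupp.onFinset (A p.1 q.1).support
        (fun g => A p.1 q.1 g * ((χ g : ℂ) * newt n (1 / ((k : ℂ) + 1)) (lam g) p.2 q.2)) (by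
        intro g hg
        rw [Finsupp.mem_support_iff]
        intro h0
        exact hg (by rw [h0, zero_mul]))
    have hBk : ∀ k i a j b g, Bk k (i, a) (j, b) g
        = A i j g * ((χ g : ℂ) * newt n (1 / ((k : ℂ) + 1)) (lam g) a b) :=
      fun k i a j b g => rfl
    refine kerDimM_limit Bk B T ?_ ?_ ?_ _ ?_
    · rintro k ⟨i, a⟩ ⟨j, b⟩ g hg
      apply hT i j
      rw [Finsupp.mem_support_iff] at hg ⊢
      intro h0
      exact hg (by rw [hBk, h0, zero_mul])
    · rintro ⟨i, a⟩ ⟨j, b⟩ g hg
      apply hT i j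
      rw [Finsupp.mem_support_iff] at hg ⊢
      intro h0
      exact hg (by rw [hB, h0, zero_mul])
    · rintro ⟨i, a⟩ ⟨j, b⟩ g
      simp only [hBk, hB]
      exact ((newt_tendsto n (lam g) a b).const_mul _).const_mul _
    · intro k
      set ε : ℂ := 1 / ((k : ℂ) + 1) with hε
      have hε0 : ε ≠ 0 := one_div_ne_zero (by exact_mod_cast Nat.succ_ne_zero k)
      let ψ : Fin n → (G →* ℂˣ) := fun a =>
        { toFun := fun g => χ g * Units.mk0 (Complex.exp (ε * lam g) ^ (a : ℕ))
            (pow_ne_zero _ (Complex.exp_ne_zero _))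
          map_one' := by
            apply Units.ext
            rw [map_one, hl1]
            simp
          map_mul' := fun x y => by
            apply Units.ext
            rw [map_mul, hlam]
            simp only [Units.val_mul, Units.val_mk0]
            rw [mul_add, Complex.exp_add, mul_pow]
            ring }
      have hψ : ∀ a g, (ψ a g : ℂ) = (χ g : ℂ) * Complex.exp (ε * lam g) ^ (a : ℕ) :=
        fun a g => rfl
      let C : K × Fin n → L × Fin n → (G →₀ ℂ) := fun p q =>
        Finsupp.onFinset (A p.1 q.1).support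
          (fun g => A p.1 q.1 g * ((ψ p.2 g : ℂ) * (1 : Matrix (Fin n) (Fin n) ℂ) p.2 q.2)) (by
          intro g hg
          rw [Finsupp.mem_support_iff]
          intro h0
          exact hg (by rw [h0, zero_mul]))
      have hC : ∀ i a j b g, C (i, a) (j, b) g
          = A i j g * ((ψ a g : ℂ) * (1 : Matrix (Fin n) (Fin n) ℂ) a b) :=
        fun i a j b g => rfl
      have h1 : kerDimM C = Fintype.card (Fin n) * kerDimM A := by
        refine kerDimM_unitary A C 1 (fun g => by
          rw [MonoidHom.one_apply, star_one, one_mul]) ψ ?_ (fun i a j b g => hC i a j b g)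
        intro g a b hab
        rw [MonoidHom.one_apply, Matrix.one_apply_ne]
        rintro rfl
        exact hab rfl
      rw [Fintype.card_fin] at h1
      rw [← h1]
      apply le_of_eq
      symm
      apply kerDimM_conj (Bk k) C (vdm n ε) (vdm_unit n ε hε0)
      intro i a j c g
      simp only [hBk, hC]
      have e1 : ∑ b, A i j g * ((χ g : ℂ) * newt n (1 / ((k : ℂ) + 1)) (lam g) a b) * vdm n ε b c
          = A i j g * (χ g : ℂ) * ∑ b, newt n ε (lam g) a b * vdm n ε b c := by
        rw [Finset.mul_sum]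
        refine Finset.sum_congr rfl fun b _ => ?_
        rw [← hε]
        ring
      rw [e1, newt_vdm n ε (lam g) hε0, Finset.sum_eq_single c]
      · rw [Matrix.one_apply_eq, hψ]
        ring
      · intro b _ hb
        rw [Matrix.one_apply_ne hb]
        ring
      · intro hh
        exact absurd (Finset.mem_univ _) hh

end

end Pool.Agent.X190.TW
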