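import Pool.Agent.W649.ZL.Mat
import Pool.Agent.W649.ZL.Lead

set_option autoImplicit false
set_option linter.unusedSectionVars false

open scoped InnerProductSpace InnerProduct ENNReal Topology
open Filter

/-! Analytic families of operators and the kernel dimension. -/

namespace Pool.Agent.X190.TW

open Pool.Agent.W649.ZL MvPolynomial

universe u v w z

section
variable {G : Type u} {I : Type v} {J : Type w} [Group G] [Fintype I] [Fintype J]
variable {ι : Type z} [Fintype ι]

/-- membership in the closed set by polynomials -/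
theorem kd_ge_iff (A : ι → EE G J →L[ℂ] EE G I) (hA : ∀ i, Eqv (A i)) (d : ℝ) (q : ι → ℂ) :
    d ≤ kd A q ↔ ∀ P : MvPolynomial ι ℂ, (∀ p : ι → ℂ, d ≤ kd A p → eval p P = 0) →
      eval q P = 0 := by
  constructor
  · intro h P hP
    exact hP q h
  · intro h
    have h1 : q ∈ zeroLocus ℂ (vanishingIdeal ℂ (locus A d)) := by
      intro P hP
      rw [aeval_ev]
      apply h
      intro p hp
      have := hP p hp
      rwa [aeval_ev] at this
    rw [locus_closed A hA d] at h1
    exact h1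

theorem differentiable_eval {p : ℂ → ι → ℂ} (hp : ∀ i, Differentiable ℂ (fun z => p z i))
    (P : MvPolynomial ι ℂ) : Differentiable ℂ (fun z => eval (p z) P) := by
  induction P using MvPolynomial.induction_on with
  | C c => simp only [eval_C]; exact differentiable_const c
  | add f g hf hg => simp only [map_add]; exact hf.add hg
  | mul_X f i hf => simp only [map_mul, eval_X]; exact hf.mul (hp i)

/-- entire families -/
theorem entire_ge (A : ι → EE G J →L[ℂ] EE G I) (hA : ∀ i, Eqv (A i)) (d : ℝ) (p : ℂ → ι → ℂ)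
    (hp : ∀ i, Differentiable ℂ (fun z => p z i))
    (h : ∀ s : ℝ, d ≤ kd A (p (s * Complex.I))) (z : ℂ) : d ≤ kd A (p z) := by
  rw [kd_ge_iff A hA]
  intro P hP
  have hd := differentiable_eval hp P
  have h1 : AnalyticOnNhd ℂ (fun z => eval (p z) P) Set.univ := fun x _ => hd.analyticAt x
  have h2 : AnalyticOnNhd ℂ (fun _ : ℂ => (0 : ℂ)) Set.univ := fun x _ => analyticAt_const
  have hfreq : ∃ᶠ z in 𝓝[≠] (0 : ℂ), eval (p z) P = (fun _ : ℂ => (0 : ℂ)) z := by
    have ht : Tendsto (fun n : ℕ => (((1 : ℝ) / ((n : ℝ) + 1) : ℝ) : ℂ) * Complex.I) atTop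
        (𝓝[≠] (0 : ℂ)) := by
      apply tendsto_nhdsWithin_iff.2
      constructor
      · have h3 := (Complex.continuous_ofReal.tendsto 0).comp
          (tendsto_one_div_add_atTop_nhds_zero_nat (𝕜 := ℝ))
        have h4 := h3.mul_const Complex.I
        simpa using h4
      · refine Eventually.of_forall fun n => ?_
        have : (0 : ℝ) < (1 : ℝ) / ((n : ℝ) + 1) := by positivity
        intro h0
        rcases mul_eq_zero.1 h0 with h5 | h5
        · exact this.ne' (by exact_mod_cast h5)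
        · exact Complex.I_ne_zero h5
    refine ht.frequently ?_
    refine Eventually.frequently (Eventually.of_forall fun n => ?_)
    exact hP _ (h _)
  have := AnalyticOnNhd.eq_of_frequently_eq h1 h2 hfreq
  exact congrFun this z

/-- limits -/
theorem limit_ge (A : ι → EE G J →L[ℂ] EE G I) (hA : ∀ i, Eqv (A i)) (d : ℝ) (p : ℕ → ι → ℂ)
    (q : ι → ℂ) (ht : ∀ i, Tendsto (fun n => p n i) atTop (𝓝 (q i))) (h : ∀ n, d ≤ kd A (p n)) :
    d ≤ kd A q := by
  rw [kd_ge_iff A hA]
  intro P hP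
  have hc : Continuous (fun x : ι → ℂ => eval x P) := MvPolynomial.continuous_eval P
  have hq : Tendsto p atTop (𝓝 q) := tendsto_pi_nhds.2 ht
  have h1 : Tendsto (fun n => eval (p n) P) atTop (𝓝 (eval q P)) := (hc.tendsto q).comp hq
  have h2 : ∀ n, eval (p n) P = 0 := fun n => hP _ (h n)
  have h3 : Tendsto (fun n => eval (p n) P) atTop (𝓝 (0 : ℂ)) := by
    refine Tendsto.congr (fun n => (h2 n).symm) ?_
    exact tendsto_const_nhds
  exact tendsto_nhds_unique h1 h3

end

section
variable {G : Type u} {I : Type v} {J : Type w} {I' : Type z} [Group G] [Fintype I] [Fintype J]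
  [Fintype I']

theorem memlp_phase (θ : G × J → ℂ) (hθ : ∀ x, ‖θ x‖ = 1) (f : EE G J) :
    Memℓp (fun x : G × J => θ x * f x) 2 := by
  rw [memlp_two_iff]
  have h := (memlp_two_iff _).1 f.2
  convert h using 1
  ext x
  rw [norm_mul, hθ, one_mul]

/-- multiplication by a function of absolute value one -/
noncomputable def ph (θ : G × J → ℂ) (hθ : ∀ x, ‖θ x‖ = 1) (f : EE G J) : EE G J :=
  ⟨fun x => θ x * f x, memlp_phase θ hθ f⟩

theorem ph_apply (θ : G × J → ℂ) (hθ : ∀ x, ‖θ x‖ = 1) (f : EE G J) (x : G × J) :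
    ph θ hθ f x = θ x * f x := rfl

theorem norm_sq_tsum' (f : EE G J) : ‖f‖ ^ 2 = ∑' x, ‖f x‖ ^ 2 := by
  have h := lp.norm_rpow_eq_tsum (p := 2) (by norm_num) f
  simpa using h

theorem isometry_ph (θ : G × J → ℂ) (hθ : ∀ x, ‖θ x‖ = 1) : Isometry (ph θ hθ) := by
  apply Isometry.of_dist_eq
  intro f g
  rw [dist_eq_norm, dist_eq_norm]
  have e1 : ph θ hθ f - ph θ hθ g = ph θ hθ (f - g) := by
    ext x
    change θ x * f x - θ x * g x = θ x * (f - g) x
    rw [← mul_sub]; rfl
  rw [e1]
  have e2 : ‖ph θ hθ (f - g)‖ ^ 2 = ‖f - g‖ ^ 2 := by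
    rw [norm_sq_tsum', norm_sq_tsum']
    refine tsum_congr fun x => ?_
    change ‖θ x * (f - g) x‖ ^ 2 = _
    rw [norm_mul, hθ, one_mul]
  exact (sq_eq_sq₀ (norm_nonneg _) (norm_nonneg _)).1 e2

/-- The kernels of two operators which are related by a multiplication operator have the same
dimension. -/
theorem vd_phase (θ : G × J → ℂ) (hθ : ∀ x, ‖θ x‖ = 1)
    (T : EE G J →L[ℂ] EE G I) (T' : EE G J →L[ℂ] EE G I')
    (h : ∀ f, T' (ph θ hθ f) = 0 ↔ T f = 0) :
    vd (LinearMap.ker (T' : EE G J →ₗ[ℂ] EE G I'))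
      = vd (LinearMap.ker (T : EE G J →ₗ[ℂ] EE G I)) := by
  have hθ0 : ∀ x, θ x ≠ 0 := by
    intro x h0
    have := hθ x
    rw [h0, norm_zero] at this
    exact zero_ne_one this
  rw [vd_eq_infDist _ (ContinuousLinearMap.isClosed_ker T'),
    vd_eq_infDist _ (ContinuousLinearMap.isClosed_ker T)]
  refine Finset.sum_congr rfl fun j _ => ?_
  congr 2
  -- the multiplication operator normalised at `(1, j)`
  set c : ℂ := (θ (1, j))⁻¹ with hc
  have hc1 : ‖c‖ = 1 := by rw [hc, norm_inv, hθ, inv_one]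
  have hc0 : c ≠ 0 := inv_ne_zero (hθ0 _)
  set η : G × J → ℂ := fun x => c * θ x with hη
  have hη1 : ∀ x, ‖η x‖ = 1 := by
    intro x; rw [hη]; simp only; rw [norm_mul, hc1, hθ, one_mul]
  have himg : ph η hη1 '' (LinearMap.ker (T : EE G J →ₗ[ℂ] EE G I) : Set (EE G J))
      = (LinearMap.ker (T' : EE G J →ₗ[ℂ] EE G I') : Set (EE G J)) := by
    have hη' : ∀ f : EE G J, ph η hη1 f = c • ph θ hθ f := by
      intro f
      ext x
      change c * θ x * f x = c * (θ x * f x)
      ring
    have hinv : ∀ x, ‖(η x)⁻¹‖ = 1 := by intro x; rw [norm_inv, hη1, inv_one]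
    ext F
    constructor
    · rintro ⟨f, hf, rfl⟩
      have h1 : T' (ph θ hθ f) = 0 := (h f).2 hf
      change T' (ph η hη1 f) = 0
      rw [hη', map_smul, h1, smul_zero]
    · intro hF
      have hback : ph η hη1 (ph (fun x => (η x)⁻¹) hinv F) = F := by
        ext x
        rw [ph_apply, ph_apply, ← mul_assoc, mul_inv_cancel₀ (by
          intro h0; have := hη1 x; rw [h0, norm_zero] at this; exact zero_ne_one this), one_mul]
      refine ⟨ph (fun x => (η x)⁻¹) hinv F, ?_, hback⟩
      refine (h _).1 ?_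
      have h2 : T' (ph η hη1 (ph (fun x => (η x)⁻¹) hinv F)) = 0 := by rw [hback]; exact hF
      rw [hη', map_smul] at h2
      exact (smul_eq_zero.1 h2).resolve_left hc0
  have hdl : ph η hη1 (dl ((1 : G), j)) = dl ((1 : G), j) := by
    ext x
    rw [ph_apply]
    by_cases hx : x = (1, j)
    · subst hx
      rw [hη]
      simp only
      rw [hc, inv_mul_cancel₀ (hθ0 _), one_mul]
    · rw [dl_apply_ne _ _ hx, mul_zero]
  rw [← himg]
  conv_lhs => rw [← hdl]
  rw [Metric.infDist_image (isometry_ph η hη1)]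

end

section
variable {G : Type u} {K : Type v} {L : Type w} {ι : Type z} [Group G] [Fintype K] [Fintype L]
  [DecidableEq K] [DecidableEq L] [Fintype ι]

/-- unitary twists of matrices -/
theorem kd_famR_unitary (h : ι → G) (k : ι → K) (j : ι → L) (a : ι → ℂ) (θ : G →* ℂ)
    (hθ : ∀ g, ‖θ g‖ = 1) (r : K → ℂ) (hr : ∀ x, ‖r x‖ = 1) (c : L → ℂ) (hc : ∀ x, ‖c x‖ = 1) :
    kd (famR h k j) (fun i => θ (h i) * r (k i) * c (j i) * a i) = kd (famR h k j) a := by
  set η : G × K → ℂ := fun x => (θ x.1)⁻¹ * (r x.2)⁻¹ with hη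
  have hη1 : ∀ x, ‖η x‖ = 1 := by
    intro x
    rw [hη]
    simp only
    rw [norm_mul, norm_inv, norm_inv, hθ, hr, inv_one, one_mul]
  have hθ0 : ∀ g, θ g ≠ 0 := by
    intro g h0; have := hθ g; rw [h0, norm_zero] at this; exact zero_ne_one this
  have hr0 : ∀ g, r g ≠ 0 := by
    intro g h0; have := hr g; rw [h0, norm_zero] at this; exact zero_ne_one this
  have hc0 : ∀ g, c g ≠ 0 := by
    intro g h0; have := hc g; rw [h0, norm_zero] at this; exact zero_ne_one this
  apply vd_phase η hη1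
  intro F
  have key : ∀ (u : G) (j' : L),
      lin (famR h k j) (fun i => θ (h i) * r (k i) * c (j i) * a i) (ph η hη1 F) (u, j')
        = (θ u)⁻¹ * c j' * lin (famR h k j) a F (u, j') := by
    intro u j'
    rw [lin_famR_apply, lin_famR_apply, Finset.mul_sum]
    refine Finset.sum_congr rfl fun i _ => ?_
    by_cases hj : j' = j i
    · rw [if_pos hj, if_pos hj, ph_apply, hη]
      simp only
      rw [map_mul, mul_inv, hj]
      have e1 := hθ0 (h i)
      have e2 := hr0 (k i)
      field_simp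
    · rw [if_neg hj, if_neg hj, mul_zero, mul_zero, mul_zero]
  constructor
  · intro h0
    ext ⟨u, j'⟩
    have h1 := key u j'
    rw [h0] at h1
    have h2 : (θ u)⁻¹ * c j' * lin (famR h k j) a F (u, j') = 0 := h1.symm
    exact (mul_eq_zero.1 h2).resolve_left (mul_ne_zero (inv_ne_zero (hθ0 _)) (hc0 _))
  · intro h0
    ext ⟨u, j'⟩
    rw [key, h0]
    change (θ u)⁻¹ * c j' * 0 = 0
    rw [mul_zero]

end

end Pool.Agent.X190.TW
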