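import Pool.Agent.X190.TW.Twist

set_option autoImplicit false
set_option linter.unusedSectionVars false

open scoped InnerProductSpace InnerProduct ENNReal Topology
open Filter

/-! Twisting and faces for elements of the group algebra. -/

namespace Pool.Agent.X190.TW

open Pool.Agent.W649.ZL MvPolynomial

universe u v w z

section
variable {G : Type u} [Group G]

/-- the kernel dimension of left convolution -/
noncomputable def kc (α : G →₀ ℂ) : ℝ :=
  vd (LinearMap.ker (cop α : EE G Unit →ₗ[ℂ] EE G Unit))

theorem kc_eq (α : G →₀ ℂ) (T : Finset G) (hT : α.support ⊆ T) :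
    kc α = kd (famR (fun t : T => (t : G)⁻¹) (fun _ => ()) (fun _ => ())) (fun t => α t) := by
  unfold kc kd
  rw [← lin_Ltr_eq α T hT]
  have h : (fun t : T => Ltr (t : G))
      = famR (L := Unit) (fun t : T => (t : G)⁻¹) (fun _ => ()) (fun _ => ()) := by
    funext t
    unfold famR
    rw [inv_inv]
  rw [h]

/-- **Twisting does not change the kernel dimension.** -/
theorem kc_twist (χ : G →* ℂˣ) (α β : G →₀ ℂ) (hβ : ∀ g, β g = (χ g : ℂ) * α g) :
    kc β = kc α := by
  have hT' : β.support ⊆ α.support := by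
    intro x hx
    rw [Finsupp.mem_support_iff] at hx ⊢
    intro h0
    exact hx (by rw [hβ, h0, mul_zero])
  rw [kc_eq α α.support subset_rfl, kc_eq β α.support hT',
    ← kd_famR_twist _ _ _ (fun t : α.support => α t) χ⁻¹ (fun _ : Unit => 1) (fun _ : Unit => 1)]
  congr 1
  funext t
  rw [hβ, MonoidHom.inv_apply, map_inv, inv_inv]
  simp

/-- **Faces.** -/
theorem kc_face (lam : G → ℝ) (hlam : ∀ x y, lam (x * y) = lam x + lam y) (m : ℝ)
    (α β : G →₀ ℂ) (hα : ∀ g, α g ≠ 0 → m ≤ lam g) (hβ0 : ∀ g, lam g = m → β g = α g)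
    (hβ1 : ∀ g, lam g ≠ m → β g = 0) : kc α ≤ kc β := by
  have hT' : β.support ⊆ α.support := by
    intro x hx
    rw [Finsupp.mem_support_iff] at hx ⊢
    intro h0
    apply hx
    by_cases h : lam x = m
    · rw [hβ0 x h, h0]
    · exact hβ1 x h
  have h1 : lam 1 = 0 := by
    have := hlam 1 1
    rw [mul_one] at this
    linarith
  have hinv : ∀ g, lam g⁻¹ = -lam g := by
    intro g
    have := hlam g⁻¹ g
    rw [inv_mul_cancel, h1] at this
    linarith
  rw [kc_eq α α.support subset_rfl, kc_eq β α.support hT']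
  refine kd_famR_face _ _ _ _ (fun g => - lam g) (fun x y => by rw [hlam]; ring)
    (fun _ : Unit => -m) (fun _ : Unit => 0) ?_ _ ?_ ?_
  · intro t ht
    have := hα t ht
    simp only [hinv, neg_neg]
    linarith
  · intro t ht
    simp only [hinv, neg_neg] at ht
    exact hβ0 t (by linarith)
  · intro t ht
    simp only [hinv, neg_neg] at ht
    exact hβ1 t (fun h => ht (by linarith))

end

end Pool.Agent.X190.TW
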