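import Pool.Agent.X190.TW.Tri

set_option autoImplicit false
set_option linter.unusedSectionVars false

open scoped InnerProductSpace InnerProduct ENNReal Topology
open Filter

/-! Twisting with finite-dimensional representations. -/

namespace Pool.Agent.X190.TW

open Pool.Agent.W649.ZL MvPolynomial

universe u v w z

section
variable {G : Type u} {K : Type v} {L : Type w} {N : Type z} [Group G] [Fintype K] [Fintype L]
  [Fintype N] [DecidableEq K] [DecidableEq L] [DecidableEq N]

/-! direct sums -/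

theorem memlp_slice (a : N) (F : EE G (K × N)) : Memℓp (fun x : G × K => F (x.1, (x.2, a))) 2 := by
  rw [memlp_two_iff]
  have h1 := (memlp_two_iff _).1 F.2
  exact h1.comp_injective (i := fun x : G × K => (x.1, (x.2, a))) (by
    rintro ⟨x, i⟩ ⟨y, j⟩ hxy
    simp only [Prod.mk.injEq, and_true] at hxy
    rw [hxy.1, hxy.2])

/-- a slice -/
noncomputable def slice (a : N) (F : EE G (K × N)) : EE G K :=
  ⟨fun x => F (x.1, (x.2, a)), memlp_slice a F⟩

theorem slice_apply (a : N) (F : EE G (K × N)) (x : G) (k : K) :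
    slice a F (x, k) = F (x, (k, a)) := rfl

theorem memlp_ins (a : N) (F : EE G K) :
    Memℓp (fun x : G × (K × N) => if x.2.2 = a then F (x.1, x.2.1) else 0) 2 := by
  rw [memlp_two_iff]
  have h1 := (memlp_two_iff _).1 F.2
  have hinj : Function.Injective (fun x : G × K => ((x.1, (x.2, a)) : G × (K × N))) := by
    rintro ⟨x, i⟩ ⟨y, j⟩ hxy
    simp only [Prod.mk.injEq, and_true] at hxy
    rw [hxy.1, hxy.2]
  rw [← hinj.summable_iff]
  · refine h1.congr fun x => ?_
    simp
  · intro x hx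
    rw [if_neg, norm_zero, zero_pow two_ne_zero]
    intro h
    apply hx
    exact ⟨(x.1, x.2.1), Prod.ext rfl (Prod.ext rfl h.symm)⟩

/-- insertion -/
noncomputable def ins (a : N) (F : EE G K) : EE G (K × N) :=
  ⟨fun x => if x.2.2 = a then F (x.1, x.2.1) else 0, memlp_ins a F⟩

theorem ins_apply (a : N) (F : EE G K) (x : G) (k : K) (b : N) :
    ins a F (x, (k, b)) = if b = a then F (x, k) else 0 := rfl

theorem norm_slice_le (a : N) (F : EE G (K × N)) : ‖slice a F‖ ≤ ‖F‖ := by
  have e2 : ‖slice a F‖ ^ 2 ≤ ‖F‖ ^ 2 := by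
    rw [norm_sq_tsum', norm_sq_tsum']
    have h1 := (memlp_two_iff _).1 F.2
    have hinj : Function.Injective (fun x : G × K => ((x.1, (x.2, a)) : G × (K × N))) := by
      rintro ⟨x, i⟩ ⟨y, j⟩ hxy
      simp only [Prod.mk.injEq, and_true] at hxy
      rw [hxy.1, hxy.2]
    exact Summable.tsum_le_tsum_of_inj _ hinj (fun _ _ => by positivity) (fun _ => le_rfl)
      (h1.comp_injective hinj) h1
  exact (sq_le_sq₀ (norm_nonneg _) (norm_nonneg _)).1 e2

theorem norm_ins (a : N) (F : EE G K) : ‖ins a F‖ = ‖F‖ := by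
  have e2 : ‖ins a F‖ ^ 2 = ‖F‖ ^ 2 := by
    rw [norm_sq_tsum', norm_sq_tsum']
    have hinj : Function.Injective (fun x : G × K => ((x.1, (x.2, a)) : G × (K × N))) := by
      rintro ⟨x, i⟩ ⟨y, j⟩ hxy
      simp only [Prod.mk.injEq, and_true] at hxy
      rw [hxy.1, hxy.2]
    rw [← hinj.tsum_eq]
    · refine tsum_congr fun x => ?_
      rw [ins_apply, if_pos rfl]
    · intro x hx
      by_contra hcon
      apply hx
      obtain ⟨x, k, b⟩ := x
      change ‖ins a F (x, (k, b))‖ ^ 2 = 0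
      rw [ins_apply, if_neg, norm_zero, zero_pow two_ne_zero]
      rintro rfl
      exact hcon ⟨(x, k), rfl⟩
  exact (sq_eq_sq₀ (norm_nonneg _) (norm_nonneg _)).1 e2

/-- the dimension of the kernel of a direct sum -/
theorem vd_directSum (S : EE G (K × N) →L[ℂ] EE G (L × N)) (T : N → EE G K →L[ℂ] EE G L)
    (h : ∀ (F : EE G (K × N)) (x : G) (j : L) (a : N),
      S F (x, (j, a)) = T a (slice a F) (x, j)) :
    vd (LinearMap.ker (S : EE G (K × N) →ₗ[ℂ] EE G (L × N)))
      = ∑ a : N, vd (LinearMap.ker (T a : EE G K →ₗ[ℂ] EE G L)) := by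
  rw [vd_eq_infDist _ (ContinuousLinearMap.isClosed_ker S), Fintype.sum_prod_type, Finset.sum_comm]
  refine Finset.sum_congr rfl fun a _ => ?_
  rw [vd_eq_infDist _ (ContinuousLinearMap.isClosed_ker (T a))]
  refine Finset.sum_congr rfl fun k _ => ?_
  congr 2
  have hmem : ∀ F : EE G (K × N), F ∈ LinearMap.ker (S : EE G (K × N) →ₗ[ℂ] EE G (L × N)) →
      slice a F ∈ LinearMap.ker (T a : EE G K →ₗ[ℂ] EE G L) := by
    intro F hF
    have hF' : S F = 0 := hF
    change T a (slice a F) = 0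
    ext ⟨x, j⟩
    rw [← h, hF']
    rfl
  have hins : ∀ F : EE G K, F ∈ LinearMap.ker (T a : EE G K →ₗ[ℂ] EE G L) →
      ins a F ∈ LinearMap.ker (S : EE G (K × N) →ₗ[ℂ] EE G (L × N)) := by
    intro F hF
    have hF' : T a F = 0 := hF
    change S (ins a F) = 0
    ext ⟨x, j, b⟩
    rw [h]
    by_cases hb : b = a
    · subst hb
      have e1 : slice b (ins b F) = F := by
        ext ⟨x, k⟩
        rw [slice_apply, ins_apply, if_pos rfl]
      rw [e1, hF']
      rfl
    · have e1 : slice b (ins a F) = 0 := by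
        ext ⟨x, k⟩
        rw [slice_apply, ins_apply, if_neg hb]
        rfl
      rw [e1, map_zero]
      rfl
  have hdl : (dl ((1 : G), (k, a)) : EE G (K × N)) = ins a (dl ((1 : G), k)) := by
    ext ⟨x, j, b⟩
    rw [ins_apply]
    by_cases hb : b = a
    · rw [if_pos hb, hb]
      by_cases hx : (x, j) = (1, k)
      · obtain ⟨rfl, rfl⟩ := Prod.mk.inj hx
        rw [dl_apply_self, dl_apply_self]
      · rw [dl_apply_ne _ _ hx, dl_apply_ne]
        intro h1
        apply hx
        obtain ⟨h2, h3⟩ := Prod.mk.inj h1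
        rw [h2, (Prod.mk.inj h3).1]
    · rw [if_neg hb, dl_apply_ne]
      intro h1
      obtain ⟨_, h3⟩ := Prod.mk.inj h1
      exact hb (Prod.mk.inj h3).2
  have hne1 : (LinearMap.ker (S : EE G (K × N) →ₗ[ℂ] EE G (L × N)) : Set (EE G (K × N))).Nonempty :=
    ⟨0, Submodule.zero_mem _⟩
  have hne2 : (LinearMap.ker (T a : EE G K →ₗ[ℂ] EE G L) : Set (EE G K)).Nonempty :=
    ⟨0, Submodule.zero_mem _⟩
  apply le_antisymm
  · apply (Metric.le_infDist hne2).2
    intro F hF
    refine (Metric.infDist_le_dist_of_mem (hins F hF)).trans (le_of_eq ?_)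
    rw [hdl, dist_eq_norm, dist_eq_norm]
    have e1 : ins a (dl ((1 : G), k)) - ins a F = ins a (dl ((1 : G), k) - F) := by
      ext ⟨x, j, b⟩
      change (if b = a then dl ((1 : G), k) (x, j) else 0) - (if b = a then F (x, j) else 0)
        = if b = a then (dl ((1 : G), k) - F) (x, j) else 0
      split_ifs
      · rfl
      · rw [sub_zero]
    rw [e1, norm_ins]
  · apply (Metric.le_infDist hne1).2
    intro F hF
    refine (Metric.infDist_le_dist_of_mem (hmem F hF)).trans ?_
    rw [dist_eq_norm, dist_eq_norm]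
    have e1 : dl ((1 : G), k) - slice a F = slice a (dl ((1 : G), (k, a)) - F) := by
      ext ⟨x, j⟩
      change dl ((1 : G), k) (x, j) - F (x, (j, a))
        = dl ((1 : G), (k, a)) (x, (j, a)) - F (x, (j, a))
      rw [hdl, ins_apply, if_pos rfl]
    rw [e1]
    exact norm_slice_le a _

/-! unitary phases -/

theorem norm_sq_row (M : Matrix N N ℂ) (hM : M * star M = 1) (f : N → ℂ) :
    ∑ a, ‖∑ b, f b * M b a‖ ^ 2 = ∑ b, ‖f b‖ ^ 2 := by
  have h1 : ∀ f : N → ℂ, ((∑ a, ‖f a‖ ^ 2 : ℝ) : ℂ) = f ⬝ᵥ star f := by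
    intro f
    push_cast
    unfold dotProduct
    refine Finset.sum_congr rfl fun a _ => ?_
    rw [Pi.star_apply, Complex.star_def, Complex.mul_conj, Complex.normSq_eq_norm_sq]
    push_cast
    rfl
  have h2 : (fun a => ∑ b, f b * M b a) = Matrix.vecMul f M := by
    funext a
    rfl
  have h3 : ((∑ a, ‖∑ b, f b * M b a‖ ^ 2 : ℝ) : ℂ) = ((∑ b, ‖f b‖ ^ 2 : ℝ) : ℂ) := by
    have := h1 (fun a => ∑ b, f b * M b a)
    rw [this, h1, h2, Matrix.star_vecMul, Matrix.dotProduct_mulVec, Matrix.vecMul_vecMul,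
      ← Matrix.star_eq_conjTranspose, hM, Matrix.vecMul_one]
  exact_mod_cast h3

/-- pointwise multiplication by matrices -/
noncomputable def mphFun (M : G → Matrix N N ℂ) (F : EE G (K × N)) : G × (K × N) → ℂ :=
  fun x => ∑ b, F (x.1, (x.2.1, b)) * M x.1 b x.2.2

theorem hasSum_mph (M : G → Matrix N N ℂ) (hM : ∀ x, M x * star (M x) = 1) (F : EE G (K × N)) :
    HasSum (fun x => ‖mphFun M F x‖ ^ 2) (‖F‖ ^ 2) := by
  have h1 := (memlp_two_iff _).1 F.2
  have h2 : HasSum (fun x : G × (K × N) => ‖F x‖ ^ 2) (‖F‖ ^ 2) := by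
    rw [norm_sq_tsum']
    exact h1.hasSum
  -- regroup
  let e : (G × K) × N ≃ G × (K × N) := Equiv.prodAssoc G K N
  have h3 : HasSum (fun x : (G × K) × N => ‖F (e x)‖ ^ 2) (‖F‖ ^ 2) := (e.hasSum_iff).2 h2
  have h4 := h3.prod_fiberwise (fun y => hasSum_fintype (fun b : N => ‖F (e (y, b))‖ ^ 2))
  have h5 : ∀ y : G × K, ∑ b : N, ‖F (e (y, b))‖ ^ 2 = ∑ a : N, ‖mphFun M F (e (y, a))‖ ^ 2 := by
    intro y
    exact (norm_sq_row (M y.1) (hM y.1) (fun b => F (y.1, (y.2, b)))).symm
  simp only [h5] at h4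
  have h6 : Summable (fun x : (G × K) × N => ‖mphFun M F (e x)‖ ^ 2) := by
    rw [summable_prod_of_nonneg (fun _ => by positivity)]
    refine ⟨fun y => Summable.of_finite, ?_⟩
    refine h4.summable.congr fun y => ?_
    rw [tsum_fintype]
  have h7 : HasSum (fun x : (G × K) × N => ‖mphFun M F (e x)‖ ^ 2) (‖F‖ ^ 2) := by
    have h8 := h6.hasSum.prod_fiberwise
      (fun y => hasSum_fintype (fun b : N => ‖mphFun M F (e (y, b))‖ ^ 2))
    have h9 := h8.unique h4
    rw [← h9]
    exact h6.hasSum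
  exact (e.hasSum_iff).1 h7

/-- pointwise multiplication by unitary matrices -/
noncomputable def mph (M : G → Matrix N N ℂ) (hM : ∀ x, M x * star (M x) = 1)
    (F : EE G (K × N)) : EE G (K × N) :=
  ⟨mphFun M F, (memlp_two_iff _).2 (hasSum_mph M hM F).summable⟩

theorem mph_apply (M : G → Matrix N N ℂ) (hM : ∀ x, M x * star (M x) = 1) (F : EE G (K × N))
    (x : G) (k : K) (a : N) : mph M hM F (x, (k, a)) = ∑ b, F (x, (k, b)) * M x b a := rfl

theorem isometry_mph (M : G → Matrix N N ℂ) (hM : ∀ x, M x * star (M x) = 1) :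
    Isometry (mph (K := K) M hM) := by
  apply Isometry.of_dist_eq
  intro f g
  rw [dist_eq_norm, dist_eq_norm]
  have e1 : mph M hM f - mph M hM g = mph M hM (f - g) := by
    ext ⟨x, k, a⟩
    change (∑ b, f (x, (k, b)) * M x b a) - (∑ b, g (x, (k, b)) * M x b a)
      = ∑ b, (f (x, (k, b)) - g (x, (k, b))) * M x b a
    rw [← Finset.sum_sub_distrib]
    exact Finset.sum_congr rfl fun b _ => by rw [sub_mul]
  rw [e1]
  have e2 : ‖mph M hM (f - g)‖ ^ 2 = ‖f - g‖ ^ 2 := by
    rw [norm_sq_tsum']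
    exact (hasSum_mph M hM (f - g)).tsum_eq
  exact (sq_eq_sq₀ (norm_nonneg _) (norm_nonneg _)).1 e2

/-- The kernels of two operators related by unitary matrices have the same dimension. -/
theorem vd_mph (M : G → Matrix N N ℂ) (hM : ∀ x, M x * star (M x) = 1) (hM1 : M 1 = 1)
    (T : EE G (K × N) →L[ℂ] EE G L) (T' : EE G (K × N) →L[ℂ] EE G L)
    (h : ∀ f, T' (mph M hM f) = 0 ↔ T f = 0) :
    vd (LinearMap.ker (T' : EE G (K × N) →ₗ[ℂ] EE G L))
      = vd (LinearMap.ker (T : EE G (K × N) →ₗ[ℂ] EE G L)) := by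
  rw [vd_eq_infDist _ (ContinuousLinearMap.isClosed_ker T'),
    vd_eq_infDist _ (ContinuousLinearMap.isClosed_ker T)]
  have hM' : ∀ x, star (M x) * star (star (M x)) = 1 := by
    intro x
    rw [star_star]
    exact mul_eq_one_comm.1 (hM x)
  have himg : mph M hM '' (LinearMap.ker (T : EE G (K × N) →ₗ[ℂ] EE G L) : Set (EE G (K × N)))
      = (LinearMap.ker (T' : EE G (K × N) →ₗ[ℂ] EE G L) : Set (EE G (K × N))) := by
    ext F
    constructor
    · rintro ⟨f, hf, rfl⟩
      exact (h f).2 hf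
    · intro hF
      have hback : mph M hM (mph (fun x => star (M x)) hM' F) = F := by
        ext ⟨x, k, a⟩
        rw [mph_apply]
        have e1 : ∀ b, mph (fun x => star (M x)) hM' F (x, (k, b))
            = Matrix.vecMul (fun c => F (x, (k, c))) (star (M x)) b := fun b => rfl
        simp only [e1]
        have e2 : ∑ b, Matrix.vecMul (fun c => F (x, (k, c))) (star (M x)) b * M x b a
            = Matrix.vecMul (Matrix.vecMul (fun c => F (x, (k, c))) (star (M x))) (M x) a := rfl
        rw [e2, Matrix.vecMul_vecMul, mul_eq_one_comm.1 (hM x), Matrix.vecMul_one]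
      refine ⟨mph (fun x => star (M x)) hM' F, ?_, hback⟩
      exact (h _).1 (by rw [hback]; exact hF)
  refine Finset.sum_congr rfl fun j _ => ?_
  have hdl : mph M hM (dl ((1 : G), j)) = dl ((1 : G), j) := by
    obtain ⟨k, a⟩ := j
    ext ⟨x, k', a'⟩
    rw [mph_apply]
    by_cases hx : x = 1
    · subst hx
      rw [hM1]
      rw [Finset.sum_eq_single a']
      · rw [Matrix.one_apply_eq, mul_one]
      · intro b _ hb
        rw [Matrix.one_apply_ne hb, mul_zero]
      · intro hh
        exact absurd (Finset.mem_univ _) hh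
    · have hne : ∀ y, (dl ((1 : G), (k, a)) : EE G (K × N)) (x, y) = 0 := by
        intro y
        apply dl_apply_ne
        intro h1
        exact hx (congrArg Prod.fst h1)
      rw [hne]
      apply Finset.sum_eq_zero
      intro b _
      rw [hne, zero_mul]
  rw [← himg]
  conv_lhs => rw [← hdl]
  rw [Metric.infDist_image (isometry_mph M hM)]

end

end Pool.Agent.X190.TW
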