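import Pool.Agent.X190.TW.Rep

set_option autoImplicit false
set_option linter.unusedSectionVars false

open scoped InnerProductSpace InnerProduct ENNReal Topology
open Filter

/-! Twisting with finite-dimensional representations. -/

namespace Pool.Agent.X190.TW

open Pool.Agent.W649.ZL MvPolynomial

universe u v w z

section
variable {G : Type u} {K : Type v} {L : Type w} {N : Type z} [Group G] [Fintype K] [Fintype L]
  [Fintype N] [DecidableEq K] [DecidableEq L] [DecidableEq N]

/-- a finite set containing all supports -/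
theorem exists_supp (A : K → L → (G →₀ ℂ)) : ∃ T : Finset G, ∀ i j, (A i j).support ⊆ T := by
  classical
  refine ⟨Finset.univ.biUnion (fun i => Finset.univ.biUnion (fun j => (A i j).support)), ?_⟩
  intro i j x hx
  rw [Finset.mem_biUnion]
  refine ⟨i, Finset.mem_univ i, ?_⟩
  rw [Finset.mem_biUnion]
  exact ⟨j, Finset.mem_univ j, hx⟩

theorem exists_opT (A : K → L → (G →₀ ℂ)) (T : Finset G) (hT : ∀ i j, (A i j).support ⊆ T) :
    ∃ S : EE G K →L[ℂ] EE G L, Eqv S ∧
    kerDimM A = vd (LinearMap.ker (S : EE G K →ₗ[ℂ] EE G L)) ∧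
    ∀ (F : EE G K) (u : G) (j : L), S F (u, j)
      = ∑ k : K, ∑ t ∈ T, A k j t * F (t * u, k) := by
  obtain ⟨S, h1, h2, h3⟩ := exists_op A
  refine ⟨S, h1, h2, ?_⟩
  intro F u j
  rw [h3]
  refine Finset.sum_congr rfl fun k _ => ?_
  apply Finset.sum_subset (hT k j)
  intro t _ ht
  rw [Finsupp.notMem_support_iff.1 ht, zero_mul]

/-- **Twisting with semisimple representations.** -/
theorem kerDimM_unitary (A : K → L → (G →₀ ℂ)) (B : K × N → L × N → (G →₀ ℂ))
    (w : G →* Matrix N N ℂ) (hw : ∀ g, w g * star (w g) = 1) (χ : N → (G →* ℂˣ))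
    (hχ : ∀ g a b, χ a ≠ χ b → w g a b = 0)
    (hB : ∀ i a j b g, B (i, a) (j, b) g = A i j g * ((χ a g : ℂ) * w g a b)) :
    kerDimM B = Fintype.card N * kerDimM A := by
  classical
  obtain ⟨T, hT⟩ := exists_supp A
  have hTB : ∀ p q, (B p q).support ⊆ T := by
    rintro ⟨i, a⟩ ⟨j, b⟩ g hg
    apply hT i j
    rw [Finsupp.mem_support_iff] at hg ⊢
    intro h0
    exact hg (by rw [hB, h0, zero_mul])
  -- the twisted matrices
  let Aχ : N → K → L → (G →₀ ℂ) := fun a i j =>
    Finsupp.onFinset (A i j).support (fun g => (χ a g : ℂ) * A i j g) (by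
      intro g hg
      rw [Finsupp.mem_support_iff]
      intro h0
      exact hg (by rw [h0, mul_zero]))
  have hAχ : ∀ a i j g, Aχ a i j g = (χ a g : ℂ) * A i j g := fun a i j g => rfl
  have hTχ : ∀ a i j, (Aχ a i j).support ⊆ T := by
    intro a i j g hg
    apply hT i j
    rw [Finsupp.mem_support_iff] at hg ⊢
    intro h0
    exact hg (by rw [hAχ, h0, mul_zero])
  have hkχ : ∀ a, kerDimM (Aχ a) = kerDimM A := by
    intro a
    refine kerDimM_twist A (Aχ a) (χ a) (fun _ => 1) (fun _ => 1) ?_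
    intro i j g
    rw [hAχ, Units.val_one, mul_one, mul_one]
  choose S hS hSk hSa using fun a => exists_opT (Aχ a) T (hTχ a)
  -- the direct sum
  let C : K × N → L × N → (G →₀ ℂ) := fun p q => if p.2 = q.2 then Aχ p.2 p.1 q.1 else 0
  have hTC : ∀ p q, (C p q).support ⊆ T := by
    rintro ⟨i, a⟩ ⟨j, b⟩ g hg
    change g ∈ (if a = b then Aχ a i j else 0).support at hg
    split_ifs at hg with h
    · exact hTχ a i j hg
    · simp at hg
  obtain ⟨D, hD, hDk, hDa⟩ := exists_opT C T hTC
  have hDs : ∀ (F : EE G (K × N)) (x : G) (j : L) (a : N),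
      D F (x, (j, a)) = S a (slice a F) (x, j) := by
    intro F x j a
    rw [hDa, hSa, Fintype.sum_prod_type]
    refine Finset.sum_congr rfl fun k _ => ?_
    rw [Finset.sum_eq_single a]
    · refine Finset.sum_congr rfl fun t _ => ?_
      change (if a = a then Aχ a k j else 0) t * _ = _
      rw [if_pos rfl]
      rfl
    · intro b _ hb
      apply Finset.sum_eq_zero
      intro t _
      change (if b = a then Aχ b k j else 0) t * _ = _
      rw [if_neg hb]
      simp
    · intro hh
      exact absurd (Finset.mem_univ _) hh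
  have hsum := vd_directSum D S hDs
  obtain ⟨E, hE, hEk, hEa⟩ := exists_opT B T hTB
  -- the unitary equivalence
  have hM : ∀ x, w x⁻¹ * star (w x⁻¹) = 1 := fun x => hw _
  have key : ∀ F : EE G (K × N), E (mph (fun x => w x⁻¹) hM F) = mph (fun x => w x⁻¹) hM (D F) := by
    intro F
    ext ⟨t, j, b⟩
    rw [hEa, mph_apply]
    simp only [hDs, hSa]
    rw [Fintype.sum_prod_type]
    have h1 : ∀ k : K, ∑ a : N, ∑ g ∈ T, B (k, a) (j, b) g
          * mph (fun x => w x⁻¹) hM F (g * t, (k, a))
        = ∑ c : N, ∑ g ∈ T, Aχ c k j g * slice c F (g * t, k) * w t⁻¹ c b := by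
      intro k
      rw [Finset.sum_comm]
      rw [Finset.sum_comm (s := (Finset.univ : Finset N)) (t := T)]
      refine Finset.sum_congr rfl fun g _ => ?_
      have h2 : ∀ a : N, B (k, a) (j, b) g * mph (fun x => w x⁻¹) hM F (g * t, (k, a))
          = ∑ c : N, A k j g * F (g * t, (k, c)) * (χ b g : ℂ) * (w (g * t)⁻¹ c a * w g a b) := by
        intro a
        rw [hB, mph_apply, Finset.mul_sum]
        refine Finset.sum_congr rfl fun c _ => ?_
        by_cases hab : χ a = χ b
        · rw [hab]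
          ring
        · rw [hχ g a b hab]
          ring
      simp only [h2]
      rw [Finset.sum_comm]
      refine Finset.sum_congr rfl fun c _ => ?_
      rw [← Finset.mul_sum]
      have h3 : ∑ a : N, w (g * t)⁻¹ c a * w g a b = w t⁻¹ c b := by
        rw [← Matrix.mul_apply, ← map_mul, mul_inv_rev, inv_mul_cancel_right]
      rw [h3, hAχ, slice_apply]
      by_cases hcb : χ c = χ b
      · rw [hcb]
        ring
      · rw [hχ _ c b hcb]
        ring
    rw [Finset.sum_congr rfl fun k _ => h1 k, Finset.sum_comm]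
    refine Finset.sum_congr rfl fun c _ => ?_
    rw [Finset.sum_mul]
    refine Finset.sum_congr rfl fun k _ => ?_
    rw [Finset.sum_mul]
  have hmain := vd_mph (K := K) (N := N) (fun x => w x⁻¹) hM (by rw [inv_one, map_one]) D E (by
    intro F
    rw [key]
    constructor
    · intro h
      have h0 : mph (K := L) (fun x => w x⁻¹) hM 0 = 0 := by
        ext ⟨x, k, a⟩
        rw [mph_apply]
        exact Finset.sum_eq_zero fun b _ => zero_mul _
      exact (isometry_mph (K := L) (fun x => w x⁻¹) hM).injective (h.trans h0.symm)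
    · intro h
      rw [h]
      ext ⟨x, k, a⟩
      rw [mph_apply]
      exact Finset.sum_eq_zero fun b _ => zero_mul _)
  rw [hEk, hmain, hsum]
  rw [Finset.sum_congr rfl fun a _ => ((hSk a).symm.trans (hkχ a)), Finset.sum_const,
    Finset.card_univ, nsmul_eq_mul]

/-- **Twisting with representations with a flag.** -/
theorem kerDimM_flag (A : K → L → (G →₀ ℂ)) (B : K × N → L × N → (G →₀ ℂ))
    (ρ : G → Matrix N N ℂ) (lev : N → ℝ) (hlev : ∀ g a b, lev b < lev a → ρ g a b = 0)
    (w : G →* Matrix N N ℂ) (hw : ∀ g, w g * star (w g) = 1) (χ : N → (G →* ℂˣ))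
    (hχ : ∀ g a b, χ a ≠ χ b → w g a b = 0) (hwl : ∀ g a b, lev a ≠ lev b → w g a b = 0)
    (hρ : ∀ g a b, lev a = lev b → ρ g a b = (χ a g : ℂ) * w g a b)
    (hB : ∀ i a j b g, B (i, a) (j, b) g = A i j g * ρ g a b) :
    kerDimM B ≤ Fintype.card N * kerDimM A := by
  classical
  let C : K × N → L × N → (G →₀ ℂ) := fun p q =>
    Finsupp.onFinset (A p.1 q.1).support (fun g => A p.1 q.1 g * ((χ p.2 g : ℂ) * w g p.2 q.2)) (by
      intro g hg
      rw [Finsupp.mem_support_iff]
      intro h0
      exact hg (by rw [h0, zero_mul]))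
  rw [← kerDimM_unitary A C w hw χ hχ (fun i a j b g => rfl)]
  refine kerDimM_face B C (fun _ => 0) (fun _ _ => by ring) (fun p => - lev p.2)
    (fun q => lev q.2) ?_ ?_ ?_
  · rintro ⟨i, a⟩ ⟨j, b⟩ g hg
    by_contra hcon
    push Not at hcon
    apply hg
    rw [hB, hlev g a b (by simp only at hcon; linarith), mul_zero]
  · rintro ⟨i, a⟩ ⟨j, b⟩ g hg
    simp only at hg
    have hab : lev a = lev b := by linarith
    rw [hB, hρ g a b hab]
    rfl
  · rintro ⟨i, a⟩ ⟨j, b⟩ g hg
    change A i j g * ((χ a g : ℂ) * w g a b) = 0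
    rw [hwl g a b (fun h => hg (by simp only; linarith)), mul_zero, mul_zero]

/-- Conjugation with an invertible matrix. -/
theorem kerDimM_conj (B C : K × N → L × N → (G →₀ ℂ)) (V : Matrix N N ℂ) (hV : IsUnit V)
    (h : ∀ i a j c g, ∑ b, B (i, a) (j, b) g * V b c = ∑ b, V a b * C (i, b) (j, c) g) :
    kerDimM B = kerDimM C := by
  classical
  obtain ⟨T1, hT1⟩ := exists_supp B
  obtain ⟨T2, hT2⟩ := exists_supp C
  obtain ⟨S, hS, hSk, hSa⟩ := exists_opT B (T1 ∪ T2)
    (fun i j => (hT1 i j).trans Finset.subset_union_left)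
  obtain ⟨R, hR, hRk, hRa⟩ := exists_opT C (T1 ∪ T2)
    (fun i j => (hT2 i j).trans Finset.subset_union_right)
  -- the scalar matrices as matrices over the group algebra
  obtain ⟨W, hW1, hW2⟩ : ∃ W : Matrix N N ℂ, V * W = 1 ∧ W * V = 1 := by
    obtain ⟨u, rfl⟩ := hV
    exact ⟨(u⁻¹ : (Matrix N N ℂ)ˣ), u.mul_inv, u.inv_mul⟩
  have hop : ∀ (X : Matrix N N ℂ), ∃ P : EE G (K × N) →L[ℂ] EE G (K × N), Eqv P ∧
      ∀ F x k a, P F (x, (k, a)) = ∑ b, F (x, (k, b)) * X b a := by
    intro X
    let M : K × N → K × N → (G →₀ ℂ) := fun p q =>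
      if p.1 = q.1 then Finsupp.single 1 (X p.2 q.2) else 0
    obtain ⟨P, hP, _, hPa⟩ := exists_opT M {1} (by
      rintro ⟨i, a⟩ ⟨j, b⟩ g hg
      change g ∈ (if i = j then Finsupp.single 1 (X a b) else 0).support at hg
      split_ifs at hg with hh
      · exact Finsupp.support_single_subset hg
      · simp at hg)
    refine ⟨P, hP, ?_⟩
    intro F x k a
    rw [hPa, Fintype.sum_prod_type, Finset.sum_eq_single k]
    · refine Finset.sum_congr rfl fun b _ => ?_
      rw [Finset.sum_singleton, one_mul]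
      change (if k = k then Finsupp.single 1 (X b a) else 0) 1 * _ = _
      rw [if_pos rfl, Finsupp.single_eq_same, mul_comm]
    · intro k' _ hk'
      apply Finset.sum_eq_zero
      intro b _
      rw [Finset.sum_singleton]
      change (if k' = k then Finsupp.single 1 (X b a) else 0) 1 * _ = _
      rw [if_neg hk']
      simp
    · intro hh
      exact absurd (Finset.mem_univ _) hh
  obtain ⟨P, hP, hPa⟩ := hop V
  obtain ⟨Q, hQ, hQa⟩ := hop W
  have hQP : ∀ F, Q (P F) = F := by
    intro F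
    ext ⟨x, k, a⟩
    rw [hQa]
    simp only [hPa]
    have e1 : ∑ b, (∑ c, F (x, (k, c)) * V c b) * W b a
        = Matrix.vecMul (Matrix.vecMul (fun c => F (x, (k, c))) V) W a := rfl
    rw [e1, Matrix.vecMul_vecMul, hW1, Matrix.vecMul_one]
  have hPQ : ∀ F, P (Q F) = F := by
    intro F
    ext ⟨x, k, a⟩
    rw [hPa]
    simp only [hQa]
    have e1 : ∑ b, (∑ c, F (x, (k, c)) * W c b) * V b a
        = Matrix.vecMul (Matrix.vecMul (fun c => F (x, (k, c))) W) V a := rfl
    rw [e1, Matrix.vecMul_vecMul, hW2, Matrix.vecMul_one]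
  -- the intertwining relation
  have hint : ∀ (F : EE G (K × N)) (x : G) (j : L) (c : N),
      R (P F) (x, (j, c)) = ∑ b, S F (x, (j, b)) * V b c := by
    intro F x j c
    rw [hRa]
    simp only [hSa]
    have h1 : ∀ p : K × N, ∀ t ∈ (T1 ∪ T2), C p (j, c) t * (∑ b, F (t * x, (p.1, b)) * V b p.2)
        = ∑ b, F (t * x, (p.1, b)) * (V b p.2 * C p (j, c) t) := by
      intro p t _
      rw [Finset.mul_sum]
      exact Finset.sum_congr rfl fun b _ => by ring
    have h2 : ∑ p : K × N, ∑ t ∈ (T1 ∪ T2), C p (j, c) t * P F (t * x, p)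
        = ∑ i : K, ∑ t ∈ (T1 ∪ T2), ∑ b, F (t * x, (i, b)) * ∑ a, V b a * C (i, a) (j, c) t := by
      rw [Fintype.sum_prod_type]
      refine Finset.sum_congr rfl fun i _ => ?_
      rw [Finset.sum_comm]
      refine Finset.sum_congr rfl fun t ht => ?_
      simp only [Finset.mul_sum]
      rw [Finset.sum_comm]
      refine Finset.sum_congr rfl fun a _ => ?_
      rw [hPa, h1 (i, a) t ht]
    rw [h2]
    have h3 : ∑ b, (∑ p : K × N, ∑ t ∈ (T1 ∪ T2), B p (j, b) t * F (t * x, p)) * V b c
        = ∑ i : K, ∑ t ∈ (T1 ∪ T2), ∑ a, F (t * x, (i, a)) * ∑ b, B (i, a) (j, b) t * V b c := by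
      simp only [Finset.sum_mul, Fintype.sum_prod_type, Finset.mul_sum]
      rw [Finset.sum_comm]
      refine Finset.sum_congr rfl fun i _ => ?_
      rw [Finset.sum_comm, Finset.sum_comm (s := T1 ∪ T2)]
      refine Finset.sum_congr rfl fun a _ => ?_
      rw [Finset.sum_comm]
      refine Finset.sum_congr rfl fun t _ => Finset.sum_congr rfl fun b _ => by ring
    rw [h3]
    refine Finset.sum_congr rfl fun i _ => Finset.sum_congr rfl fun t _ =>
      Finset.sum_congr rfl fun a _ => ?_
    rw [h i a j c t]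
  have hker : (LinearMap.ker (S : EE G (K × N) →ₗ[ℂ] EE G (L × N))).map
        (P : EE G (K × N) →ₗ[ℂ] EE G (K × N))
      = LinearMap.ker (R : EE G (K × N) →ₗ[ℂ] EE G (L × N)) := by
    ext F
    constructor
    · rintro ⟨F', hF', rfl⟩
      have h0 : S F' = 0 := hF'
      change R (P F') = 0
      ext ⟨x, j, c⟩
      rw [hint, h0]
      exact Finset.sum_eq_zero fun b _ => zero_mul _
    · intro hF
      have h0 : R F = 0 := hF
      refine ⟨Q F, ?_, hPQ F⟩
      change S (Q F) = 0
      ext ⟨x, j, b⟩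
      have h1 : ∀ c, ∑ b, S (Q F) (x, (j, b)) * V b c = 0 := by
        intro c
        rw [← hint, hPQ, h0]
        rfl
      have h2 : Matrix.vecMul (fun b => S (Q F) (x, (j, b))) V = 0 := by
        funext c
        exact h1 c
      have h3 : Matrix.vecMul (Matrix.vecMul (fun b => S (Q F) (x, (j, b))) V) W = 0 := by
        rw [h2, Matrix.zero_vecMul]
      rw [Matrix.vecMul_vecMul, hW1, Matrix.vecMul_one] at h3
      exact congrFun h3 b
  have hrn := rank_nullity P hP (inv_ker S hS) (ContinuousLinearMap.isClosed_ker S)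
  have hP0 : LinearMap.ker (P : EE G (K × N) →ₗ[ℂ] EE G (K × N)) = ⊥ := by
    rw [LinearMap.ker_eq_bot]
    exact Function.LeftInverse.injective hQP
  rw [hP0, inf_bot_eq, vd_bot, zero_add, hker] at hrn
  rw [hSk, hRk, hrn]

end

end Pool.Agent.X190.TW
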