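import Pool.Agent.X190.TW.Twist

set_option autoImplicit false
set_option linter.unusedSectionVars false

open scoped InnerProductSpace InnerProduct ENNReal Topology
open Filter

/-! Triangular minors. -/

namespace Pool.Agent.X190.TW

open Pool.Agent.W649.ZL MvPolynomial

universe u v w z

section
variable {G : Type u} {K : Type v} {L : Type w} [Group G] [Fintype K] [Fintype L]
  [DecidableEq K] [DecidableEq L]

/-- restriction to the rows in `S` -/
theorem vd_ker_le (T : EE G K →L[ℂ] EE G L) (hT : Eqv T) (S : Finset K)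
    (h : ∀ F : EE G K, T F = 0 → (∀ (x : G) (k : K), k ∉ S → F (x, k) = 0) → F = 0) :
    vd (LinearMap.ker (T : EE G K →ₗ[ℂ] EE G L)) ≤ (Fintype.card K : ℝ) - S.card := by
  classical
  -- the projection to the other rows
  let P : EE G K →L[ℂ] EE G K := ∑ k ∈ (Finset.univ \ S), elem (1 : G) k k
  have hPapp : ∀ (F : EE G K) (x : G) (k : K), P F (x, k) = if k ∈ S then 0 else F (x, k) := by
    intro F x k
    have h1 : P F (x, k) = ∑ k' ∈ (Finset.univ \ S), (if k = k' then F (x, k') else 0) := by
      change (∑ k' ∈ (Finset.univ \ S), (elem (1 : G) k' k' : EE G K →L[ℂ] EE G K)) F (x, k) = _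
      rw [sum_apply, sum_apply_EE]
      refine Finset.sum_congr rfl fun k' _ => ?_
      rw [elem_apply, inv_one, one_mul]
    rw [h1]
    split_ifs with hk
    · apply Finset.sum_eq_zero
      intro k' hk'
      rw [if_neg]
      rintro rfl
      exact (Finset.mem_sdiff.1 hk').2 hk
    · rw [Finset.sum_eq_single k]
      · rw [if_pos rfl]
      · intro k' _ hne
        rw [if_neg (Ne.symm hne)]
      · intro hh
        exact absurd (Finset.mem_sdiff.2 ⟨Finset.mem_univ _, hk⟩) hh
  have hP : Eqv P := by
    intro g F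
    ext ⟨x, k⟩
    change P (tr g F) (x, k) = P F (x * g, k)
    rw [hPapp, hPapp]
    rfl
  have hker := rank_nullity P hP (inv_ker T hT) (ContinuousLinearMap.isClosed_ker T)
  have h0 : LinearMap.ker (T : EE G K →ₗ[ℂ] EE G L) ⊓ LinearMap.ker (P : EE G K →ₗ[ℂ] EE G K)
      = ⊥ := by
    rw [eq_bot_iff]
    rintro F ⟨hF1, hF2⟩
    rw [Submodule.mem_bot]
    refine h F hF1 ?_
    intro x k hk
    have h2 : P F = 0 := hF2
    have h3 := hPapp F x k
    rw [if_neg hk, h2] at h3
    exact h3.symm
  rw [h0, vd_bot, zero_add] at hker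
  rw [hker]
  have hle : (LinearMap.ker (T : EE G K →ₗ[ℂ] EE G L)).map (P : EE G K →ₗ[ℂ] EE G K)
      ≤ cosub G (Finset.univ \ S) := by
    rintro _ ⟨F, _, rfl⟩ x k hk
    have hk' : k ∈ S := by
      by_contra hcon
      exact hk (Finset.mem_sdiff.2 ⟨Finset.mem_univ _, hcon⟩)
    change P F (x, k) = 0
    rw [hPapp, if_pos hk']
  have h1 := vd_mono hle
  rw [vd_cosub, Finset.card_sdiff_of_subset (Finset.subset_univ _), Finset.card_univ,
    Nat.cast_sub (Finset.card_le_univ _)] at h1
  exact h1

/-- the operator of a matrix, on the kernel -/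
theorem exists_op (A : K → L → (G →₀ ℂ)) : ∃ T : EE G K →L[ℂ] EE G L, Eqv T ∧
    kerDimM A = vd (LinearMap.ker (T : EE G K →ₗ[ℂ] EE G L)) ∧
    ∀ (F : EE G K) (u : G) (j : L), T F (u, j)
      = ∑ k : K, ∑ t ∈ (A k j).support, A k j t * F (t * u, k) := by
  classical
  let T : Finset G := Finset.univ.biUnion (fun i => Finset.univ.biUnion (fun j => (A i j).support))
  have hT : ∀ i j, (A i j).support ⊆ T := by
    intro i j x hx
    rw [Finset.mem_biUnion]
    refine ⟨i, Finset.mem_univ i, ?_⟩
    rw [Finset.mem_biUnion]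
    exact ⟨j, Finset.mem_univ j, hx⟩
  refine ⟨lin (famR (fun i : T × K × L => (i.1 : G)) (fun i => i.2.1) (fun i => i.2.2))
    (coefT T A), lin_eqv _ (famR_eqv _ _ _) _, kerDimM_coefT T A hT, ?_⟩
  intro F u j
  rw [lin_famR_apply, Fintype.sum_prod_type, Finset.sum_comm, Fintype.sum_prod_type]
  refine Finset.sum_congr rfl fun k _ => ?_
  rw [Finset.sum_eq_single j]
  · unfold coefT
    simp only [if_true]
    rw [Finset.sum_coe_sort T (fun t => A k j t * F (t * u, k))]
    symm
    apply Finset.sum_subset (hT k j)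
    intro t _ ht
    rw [Finsupp.notMem_support_iff.1 ht, zero_mul]
  · intro j' _ hne
    apply Finset.sum_eq_zero
    intro t _
    rw [if_neg (Ne.symm hne), mul_zero]
  · intro hh
    exact absurd (Finset.mem_univ _) hh

/-- **Triangular minors.** -/
theorem kerDimM_tri (B : K → L → (G →₀ ℂ)) (n : ℕ) (f : Fin n → K) (g : Fin n → L)
    (hf : Function.Injective f) (htri : ∀ a b, a < b → B (f b) (g a) = 0)
    (hdiag : ∀ a, kerDimM (fun (_ _ : Fin 1) => B (f a) (g a)) ≤ 0) :
    kerDimM B ≤ (Fintype.card K : ℝ) - n := by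
  classical
  obtain ⟨T, hT, hTk, hTa⟩ := exists_op B
  rw [hTk]
  have hcard : (Finset.univ.image f).card = n := by
    rw [Finset.card_image_of_injective _ hf, Finset.card_univ, Fintype.card_fin]
  have h := vd_ker_le T hT (Finset.univ.image f) ?_
  · rw [hcard] at h
    exact h
  intro F hF hsupp
  have key : ∀ (a : ℕ) (ha : a < n), ∀ x : G, F (x, f ⟨a, ha⟩) = 0 := by
    intro a
    induction a using Nat.strong_induction_on with
    | _ a ih =>
      intro ha
      obtain ⟨S, hS, hSk, hSa⟩ := exists_op (fun (_ _ : Fin 1) => B (f ⟨a, ha⟩) (g ⟨a, ha⟩))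
      have hinj : Function.Injective S := by
        apply injective_of_vd_eq_zero S hS
        rw [← hSk]
        exact hdiag ⟨a, ha⟩
      have hmem : Memℓp (fun x : G × Fin 1 => F (x.1, f ⟨a, ha⟩)) 2 := by
        rw [memlp_two_iff]
        have h1 := (memlp_two_iff _).1 F.2
        exact h1.comp_injective (i := fun x : G × Fin 1 => (x.1, f ⟨a, ha⟩)) (by
          rintro ⟨x, i⟩ ⟨y, j⟩ hxy
          have := congrArg Prod.fst hxy
          simp only at this
          exact Prod.ext this (Subsingleton.elim _ _))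
      let F1 : EE G (Fin 1) := ⟨fun x => F (x.1, f ⟨a, ha⟩), hmem⟩
      have h0 : S F1 = 0 := by
        ext ⟨u, j⟩
        rw [hSa]
        change _ = (0 : ℂ)
        rw [Fin.sum_univ_one]
        have h2 := hTa F u (g ⟨a, ha⟩)
        rw [hF] at h2
        have h3 : (0 : ℂ) = ∑ k : K, ∑ t ∈ (B k (g ⟨a, ha⟩)).support,
          B k (g ⟨a, ha⟩) t * F (t * u, k) := h2
        rw [Finset.sum_eq_single (f ⟨a, ha⟩)] at h3
        · exact h3.symm
        · intro k _ hk
          apply Finset.sum_eq_zero
          intro t _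
          by_cases hkS : k ∈ Finset.univ.image f
          · obtain ⟨b, _, rfl⟩ := Finset.mem_image.1 hkS
            rcases lt_trichotomy b ⟨a, ha⟩ with hb | hb | hb
            · have := ih b.1 hb b.2 (t * u)
              rw [this, mul_zero]
            · exact absurd (by rw [hb]) hk
            · rw [htri _ _ hb]
              simp
          · rw [hsupp _ _ hkS, mul_zero]
        · intro hh
          exact absurd (Finset.mem_univ _) hh
      have h1 : F1 = 0 := hinj (by rw [h0, map_zero])
      intro x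
      have h2 := congrArg (fun H : EE G (Fin 1) => H (x, 0)) h1
      exact h2
  ext ⟨x, k⟩
  by_cases hkS : k ∈ Finset.univ.image f
  · obtain ⟨b, _, rfl⟩ := Finset.mem_image.1 hkS
    exact key b.1 b.2 x
  · exact hsupp x k hkS

end

end Pool.Agent.X190.TW
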