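import Pool.Agent.X190.TW.Base

set_option autoImplicit false
set_option linter.unusedSectionVars false

open scoped InnerProductSpace InnerProduct ENNReal Topology
open Filter

/-! Twisting by characters which need not be unitary, and faces. -/

namespace Pool.Agent.X190.TW

open Pool.Agent.W649.ZL MvPolynomial

universe u v w z

section
variable {G : Type u} {K : Type v} {L : Type w} {ι : Type z} [Group G] [Fintype K] [Fintype L]
  [DecidableEq K] [DecidableEq L] [Fintype ι]

/-- one-parameter families -/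
theorem kd_famR_exp (h : ι → G) (k : ι → K) (j : ι → L) (a : ι → ℂ) (lam : G → ℝ)
    (hlam : ∀ x y, lam (x * y) = lam x + lam y) (r : K → ℝ) (c : L → ℝ) (z : ℂ) :
    kd (famR h k j) a ≤ kd (famR h k j)
      (fun i => Complex.exp (z * ((lam (h i) + r (k i) + c (j i) : ℝ) : ℂ)) * a i) := by
  refine entire_ge (famR h k j) (famR_eqv h k j) (kd (famR h k j) a)
    (fun z i => Complex.exp (z * ((lam (h i) + r (k i) + c (j i) : ℝ) : ℂ)) * a i) ?_ ?_ z
  · intro i
    exact ((Complex.differentiable_exp.comp (differentiable_id.mul_const _)).mul_const _)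
  · intro s
    have h1 : lam 1 = 0 := by
      have := hlam 1 1
      rw [mul_one] at this
      linarith
    let θ : G →* ℂ :=
      { toFun := fun g => Complex.exp ((s * lam g : ℝ) * Complex.I)
        map_one' := by rw [h1]; simp
        map_mul' := fun x y => by
          rw [← Complex.exp_add, hlam]
          congr 1
          push_cast
          ring }
    have hθ : ∀ g, ‖θ g‖ = 1 := fun g => Complex.norm_exp_ofReal_mul_I _
    have := kd_famR_unitary h k j a θ hθ (fun x => Complex.exp ((s * r x : ℝ) * Complex.I))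
      (fun x => Complex.norm_exp_ofReal_mul_I _) (fun x => Complex.exp ((s * c x : ℝ) * Complex.I))
      (fun x => Complex.norm_exp_ofReal_mul_I _)
    rw [← this]
    apply le_of_eq
    congr 1
    funext i
    change Complex.exp ((s * lam (h i) : ℝ) * Complex.I) * _ * _ * a i = _
    rw [← Complex.exp_add, ← Complex.exp_add]
    congr 2
    push_cast
    ring

theorem kd_famR_twist_le (h : ι → G) (k : ι → K) (j : ι → L) (a : ι → ℂ) (χ : G →* ℂˣ)
    (r : K → ℂˣ) (c : L → ℂˣ) :
    kd (famR h k j) a ≤ kd (famR h k j)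
      (fun i => (χ (h i) : ℂ) * (r (k i) : ℂ) * (c (j i) : ℂ) * a i) := by
  have hpos : ∀ u : ℂˣ, 0 < ‖(u : ℂ)‖ := fun u => norm_pos_iff.2 u.ne_zero
  have h1 := kd_famR_exp h k j a (fun g => Real.log ‖(χ g : ℂ)‖) (by
    intro x y
    rw [map_mul, Units.val_mul, norm_mul, Real.log_mul (hpos _).ne' (hpos _).ne'])
    (fun x => Real.log ‖(r x : ℂ)‖) (fun x => Real.log ‖(c x : ℂ)‖) 1
  refine h1.trans (le_of_eq ?_)
  let θ : G →* ℂ :=
    { toFun := fun g => (χ g : ℂ) * ((‖(χ g : ℂ)‖ : ℝ) : ℂ)⁻¹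
      map_one' := by simp
      map_mul' := fun x y => by
        rw [map_mul, Units.val_mul, norm_mul]
        push_cast
        rw [mul_inv]
        ring }
  have hph : ∀ u : ℂˣ, ‖(u : ℂ) * ((‖(u : ℂ)‖ : ℝ) : ℂ)⁻¹‖ = 1 := by
    intro u
    rw [norm_mul, norm_inv, Complex.norm_real, norm_norm, mul_inv_cancel₀ (hpos u).ne']
  have h2 := kd_famR_unitary h k j
    (fun i => Complex.exp (1 * ((Real.log ‖(χ (h i) : ℂ)‖ + Real.log ‖(r (k i) : ℂ)‖
      + Real.log ‖(c (j i) : ℂ)‖ : ℝ) : ℂ)) * a i) θ (fun g => hph (χ g))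
    (fun x => (r x : ℂ) * ((‖(r x : ℂ)‖ : ℝ) : ℂ)⁻¹) (fun x => hph (r x))
    (fun x => (c x : ℂ) * ((‖(c x : ℂ)‖ : ℝ) : ℂ)⁻¹) (fun x => hph (c x))
  rw [← h2]
  congr 1
  funext i
  change (χ (h i) : ℂ) * ((‖(χ (h i) : ℂ)‖ : ℝ) : ℂ)⁻¹ * _ * _ * _ = _
  rw [one_mul, ← Complex.ofReal_exp, Real.exp_add, Real.exp_add, Real.exp_log (hpos _),
    Real.exp_log (hpos _), Real.exp_log (hpos _)]
  push_cast
  have e1 : ((‖(χ (h i) : ℂ)‖ : ℝ) : ℂ) ≠ 0 := by exact_mod_cast (hpos _).ne'
  have e2 : ((‖(r (k i) : ℂ)‖ : ℝ) : ℂ) ≠ 0 := by exact_mod_cast (hpos _).ne'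
  have e3 : ((‖(c (j i) : ℂ)‖ : ℝ) : ℂ) ≠ 0 := by exact_mod_cast (hpos _).ne'
  field_simp

/-- **Twisting does not change the kernel dimension.** -/
theorem kd_famR_twist (h : ι → G) (k : ι → K) (j : ι → L) (a : ι → ℂ) (χ : G →* ℂˣ)
    (r : K → ℂˣ) (c : L → ℂˣ) :
    kd (famR h k j) (fun i => (χ (h i) : ℂ) * (r (k i) : ℂ) * (c (j i) : ℂ) * a i)
      = kd (famR h k j) a := by
  apply le_antisymm
  · have h1 := kd_famR_twist_le h k j
      (fun i => (χ (h i) : ℂ) * (r (k i) : ℂ) * (c (j i) : ℂ) * a i) χ⁻¹ (fun x => (r x)⁻¹)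
      (fun x => (c x)⁻¹)
    refine h1.trans (le_of_eq ?_)
    congr 1
    funext i
    have e1 : (χ (h i) : ℂ) ≠ 0 := (χ (h i)).ne_zero
    have e2 : (r (k i) : ℂ) ≠ 0 := (r (k i)).ne_zero
    have e3 : (c (j i) : ℂ) ≠ 0 := (c (j i)).ne_zero
    rw [MonoidHom.inv_apply, Units.val_inv_eq_inv_val, Units.val_inv_eq_inv_val,
      Units.val_inv_eq_inv_val]
    field_simp
  · exact kd_famR_twist_le h k j a χ r c

/-- **Faces.** -/
theorem kd_famR_face (h : ι → G) (k : ι → K) (j : ι → L) (a : ι → ℂ) (lam : G → ℝ)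
    (hlam : ∀ x y, lam (x * y) = lam x + lam y) (r : K → ℝ) (c : L → ℝ)
    (hw : ∀ i, a i ≠ 0 → 0 ≤ lam (h i) + r (k i) + c (j i)) (b : ι → ℂ)
    (hb0 : ∀ i, lam (h i) + r (k i) + c (j i) = 0 → b i = a i)
    (hb1 : ∀ i, lam (h i) + r (k i) + c (j i) ≠ 0 → b i = 0) :
    kd (famR h k j) a ≤ kd (famR h k j) b := by
  refine limit_ge (famR h k j) (famR_eqv h k j) _
    (fun n i => Complex.exp (-(n : ℂ) * ((lam (h i) + r (k i) + c (j i) : ℝ) : ℂ)) * a i) b ?_ ?_
  · intro i
    by_cases ha : a i = 0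
    · have hb : b i = 0 := by
        by_cases hw0 : lam (h i) + r (k i) + c (j i) = 0
        · rw [hb0 i hw0, ha]
        · exact hb1 i hw0
      simp only [ha, hb, mul_zero]
      exact tendsto_const_nhds
    · by_cases hw0 : lam (h i) + r (k i) + c (j i) = 0
      · rw [hb0 i hw0]
        simp only [hw0, Complex.ofReal_zero, mul_zero, Complex.exp_zero, one_mul]
        exact tendsto_const_nhds
      · have hpos : 0 < lam (h i) + r (k i) + c (j i) := lt_of_le_of_ne (hw i ha) (Ne.symm hw0)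
        rw [hb1 i hw0]
        set w := lam (h i) + r (k i) + c (j i) with hwdef
        have h1 : Tendsto (fun n : ℕ => Real.exp (-(n : ℝ) * w)) atTop (𝓝 0) := by
          apply Real.tendsto_exp_atBot.comp
          have h2 : Tendsto (fun n : ℕ => (n : ℝ) * w) atTop atTop :=
            tendsto_natCast_atTop_atTop.atTop_mul_const hpos
          have h3 := tendsto_neg_atTop_atBot.comp h2
          refine h3.congr fun n => ?_
          simp [neg_mul]
        have h4 : Tendsto (fun n : ℕ => ((Real.exp (-(n : ℝ) * w) : ℝ) : ℂ) * a i) atTop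
            (𝓝 (((0 : ℝ) : ℂ) * a i)) :=
          ((Complex.continuous_ofReal.tendsto 0).comp h1).mul_const (a i)
        rw [Complex.ofReal_zero, zero_mul] at h4
        refine h4.congr fun n => ?_
        push_cast
        rfl
  · intro n
    exact kd_famR_exp h k j a lam hlam r c (-(n : ℂ))

/-! matrices -/

theorem kerDimM_coefT (T : Finset G) (A : K → L → (G →₀ ℂ)) (hT : ∀ k j, (A k j).support ⊆ T) :
    kerDimM A = kd (famR (fun i : T × K × L => (i.1 : G)) (fun i => i.2.1) (fun i => i.2.2))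
      (coefT T A) := by
  rw [← kerDimM_eq, matM_coefT T A hT]

/-- **Twisting does not change the kernel dimension.** -/
theorem kerDimM_twist (A B : K → L → (G →₀ ℂ)) (χ : G →* ℂˣ) (r : K → ℂˣ) (c : L → ℂˣ)
    (hB : ∀ i j g, B i j g = (χ g : ℂ) * (r i : ℂ) * (c j : ℂ) * A i j g) :
    kerDimM B = kerDimM A := by
  classical
  let T : Finset G := Finset.univ.biUnion (fun i => Finset.univ.biUnion (fun j => (A i j).support))
  have hT : ∀ i j, (A i j).support ⊆ T := by
    intro i j x hx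
    rw [Finset.mem_biUnion]
    refine ⟨i, Finset.mem_univ i, ?_⟩
    rw [Finset.mem_biUnion]
    exact ⟨j, Finset.mem_univ j, hx⟩
  have hT' : ∀ i j, (B i j).support ⊆ T := by
    intro i j x hx
    apply hT i j
    rw [Finsupp.mem_support_iff] at hx ⊢
    intro h0
    exact hx (by rw [hB, h0, mul_zero])
  rw [kerDimM_coefT T A hT, kerDimM_coefT T B hT',
    ← kd_famR_twist (fun i : T × K × L => (i.1 : G)) (fun i => i.2.1) (fun i => i.2.2)
      (coefT T A) χ r c]
  congr 1
  funext i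
  exact hB _ _ _

/-- **Faces.** -/
theorem kerDimM_face (A B : K → L → (G →₀ ℂ)) (lam : G → ℝ)
    (hlam : ∀ x y, lam (x * y) = lam x + lam y) (r : K → ℝ) (c : L → ℝ)
    (hA : ∀ i j g, A i j g ≠ 0 → 0 ≤ lam g + r i + c j)
    (hB0 : ∀ i j g, lam g + r i + c j = 0 → B i j g = A i j g)
    (hB1 : ∀ i j g, lam g + r i + c j ≠ 0 → B i j g = 0) :
    kerDimM A ≤ kerDimM B := by
  classical
  let T : Finset G := Finset.univ.biUnion (fun i => Finset.univ.biUnion (fun j => (A i j).support))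
  have hT : ∀ i j, (A i j).support ⊆ T := by
    intro i j x hx
    rw [Finset.mem_biUnion]
    refine ⟨i, Finset.mem_univ i, ?_⟩
    rw [Finset.mem_biUnion]
    exact ⟨j, Finset.mem_univ j, hx⟩
  have hT' : ∀ i j, (B i j).support ⊆ T := by
    intro i j x hx
    apply hT i j
    rw [Finsupp.mem_support_iff] at hx ⊢
    intro h0
    apply hx
    by_cases h1 : lam x + r i + c j = 0
    · rw [hB0 i j x h1, h0]
    · exact hB1 i j x h1
  rw [kerDimM_coefT T A hT, kerDimM_coefT T B hT']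
  exact kd_famR_face _ _ _ (coefT T A) lam hlam r c (fun i hi => hA _ _ _ hi) (coefT T B)
    (fun i hi => hB0 _ _ _ hi) (fun i hi => hB1 _ _ _ hi)

end

end Pool.Agent.X190.TW
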